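import Pool.Agent.SPV.Main

/-!
# MP_5aa105_al : abelian vertices of Specht modules in characteristic 2

For every field `F` of characteristic 2, every `n` and every partition `μ` of `n` (a Young diagram
with `n` cells) such that the Specht module `S^μ` is indecomposable: if a vertex `Q` of `S^μ` is
abelian then `Q` is elementary abelian.  In particular no Specht module in characteristic 2 is
indecomposable with abelian vertices containing `ℤ/4` as a direct factor: the answer to the
question is no.

The definitions are in `Pool/Agent/SPV/D1.lean` (relative projectivity as in the problem: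
`V` is a direct summand of `Ind_H^G Res_H V`, for Mathlib's `Representation.ind`; vertex = minimal
such subgroup; indecomposable) and in `Pool/Agent/SPV/D2.lean` (tabloids, tableaux, polytabloids,
Specht modules).
-/

namespace Pool.Agent.Results.MP_5aa105_al.ElementaryVertices

open SPV

universe u v

/-- the Specht module `S^μ` of the symmetric group on `Fin n` over `F` is indecomposable -/
def SpechtIndec (F : Type u) [Field F] (n : ℕ) (μ : YoungDiagram) : Prop :=
  IsIndec (V := Specht F μ (Fin n)) (spechtRep F μ (Fin n))

/-- `Q` is a vertex of the Specht module `S^μ` of the symmetric group on `Fin n` over `F` -/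
def SpechtVertex (F : Type u) [Field F] (n : ℕ) (μ : YoungDiagram)
    (Q : Subgroup (Equiv.Perm (Fin n))) : Prop :=
  IsVertex (V := Specht F μ (Fin n)) (spechtRep F μ (Fin n)) Q

/-- **Answer to the question (no).**  Let `F` be a field of characteristic 2. -/
theorem result (F : Type u) [Field F] [CharP F 2] :
    (∀ (n : ℕ) (μ : YoungDiagram), μ.card = n → SpechtIndec F n μ →
      ∀ Q : Subgroup (Equiv.Perm (Fin n)), SpechtVertex F n μ Q →
        (∀ a ∈ Q, ∀ b ∈ Q, a * b = b * a) → ∀ q ∈ Q, q * q = 1) ∧
    ¬ ∃ (n : ℕ) (μ : YoungDiagram), 1 ≤ n ∧ μ.card = n ∧ SpechtIndec F n μ ∧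
      ∃ Q : Subgroup (Equiv.Perm (Fin n)), SpechtVertex F n μ Q ∧
        (∀ a ∈ Q, ∀ b ∈ Q, a * b = b * a) ∧
        ∃ (R : Type v) (_ : Group R), Nonempty (Q ≃* Multiplicative (ZMod 4) × R) := by
  refine ⟨fun n μ hμ hi Q hQ hab => main F n μ hμ hi Q hQ hab, ?_⟩
  rintro ⟨n, μ, _, hμ, hi, Q, hQ, hab, R, hR, ⟨φ⟩⟩
  exact no_Z4_factor F n μ hμ hi Q hQ hab R φ

end Pool.Agent.Results.MP_5aa105_al.ElementaryVertices
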